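import Pool.Agent.LAT.StmtsC

/-!
# Squad LAT, row TLU: the tail is unique for the optimal `M`
-/

set_option autoImplicit false

namespace Pool.Agent.LAT.H65

open Matrix

theorem tlu_sq {m : ℕ} (a b : Fin m → ℝ) : sq (a - b) ≤ 2 * sq a + 2 * sq b := by
  unfold sq dotProduct
  rw [Finset.mul_sum, Finset.mul_sum, ← Finset.sum_add_distrib]
  refine Finset.sum_le_sum fun i _ => ?_
  rw [Pi.sub_apply]
  nlinarith [sq_nonneg (a i + b i)]

theorem tlu_det (ggp : GgpStmt) {m : ℕ} {B : Matrix (Fin m) (Fin m) ℤ} (hB : IsHNF B) :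
    1 ≤ (GG B).det := by
  have h1 := ggp m B hB m le_rfl
  have h2 : LB (GG B) m = GG B := by
    ext i j
    unfold LB
    rw [Matrix.of_apply, if_pos ⟨i.2, j.2⟩]
  rwa [h2] at h1

theorem tlu_half (dsr : DsrStmt) (ggp : GgpStmt) {n m d : ℕ} {A : Matrix (Fin n) (Fin m) ℤ}
    {v : Fin m → ℤ} {B : Matrix (Fin m) (Fin m) ℤ} (hB : IsHNF B) {u : Fin m → ℤ} {z : Fin n → ℤ}
    {y : Fin m → ℤ} (h : Tail A v d B u z y) : ∃ p ∈ RS (rows B), sq (rv (v - u) - p) ≤ d := by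
  obtain ⟨p, hp, -, he⟩ := (dsr m B (v - u) hB).2.2 y h.sol
  refine ⟨p, hp, ?_⟩
  have h1 : ((y ⬝ᵥ (B *ᵥ (v - u)) + (GG B).det * ((v - u) ⬝ᵥ (v - u)) : ℤ) : ℝ) ≤
      (((d : ℤ) * (GG B).det : ℤ) : ℝ) := by
    exact_mod_cast h.dist
  rw [he] at h1
  have h2 : (1 : ℝ) ≤ ((GG B).det : ℝ) := by
    exact_mod_cast tlu_det ggp hB
  rw [Int.cast_mul, Int.cast_natCast] at h1
  have h3 : (0 : ℝ) < ((GG B).det : ℝ) := by linarith
  have h4 : ((GG B).det : ℝ) * sq (rv (v - u) - p) ≤ ((GG B).det : ℝ) * d := by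
    rw [mul_comm ((GG B).det : ℝ) (d : ℝ)]
    exact h1
  exact le_of_mul_le_mul_left h4 h3

/-- TLU. -/
theorem tlu (dsr : DsrStmt) (rdu : RduStmt) (unq : UnqStmt) (_ina : InaStmt) (ggp : GgpStmt) :
    TluStmt := by
  intro n m d A v B hA hB hopt u u' z z' y y' h h'
  obtain ⟨p, hp, hpd⟩ := tlu_half dsr ggp hB h
  obtain ⟨p', hp', hpd'⟩ := tlu_half dsr ggp hB h'
  have hmem : ∀ {u : Fin m → ℤ} {z : Fin n → ℤ}, z ᵥ* A = u → u ∈ rows A := by
    intro u z hz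
    rw [← hz, Matrix.vecMul_eq_sum]
    exact Submodule.sum_mem _ fun i _ => Submodule.smul_mem _ _
      (Submodule.subset_span ⟨i, rfl⟩)
  have hw : u - u' ∈ rows B := by
    refine unq m (rows A) d (rows B) hopt (u - u')
      (Submodule.sub_mem _ (hmem h.mem) (hmem h'.mem)) ⟨p' - p, Submodule.sub_mem _ hp' hp, ?_⟩
    have e1 : rv (u - u') - (p' - p) = (rv (v - u') - p') - (rv (v - u) - p) := by
      funext j
      simp only [rv, Pi.sub_apply]
      push_cast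
      ring
    rw [e1]
    refine (tlu_sq _ _).trans ?_
    linarith
  have huu : u = u' := by
    obtain ⟨u₀, -, -, h0⟩ := rdu m B u hB
    have h1 := h0 u h.red (by rw [sub_self]; exact Submodule.zero_mem _)
    have h2 := h0 u' h'.red hw
    rw [h1, h2]
  subst huu
  refine ⟨rfl, ?_, (dsr m B (v - u) hB).2.1 y y' h.sol h'.sol⟩
  have h1 : ∑ i, (z - z') i • A i = 0 := by
    have h2 : (z - z') ᵥ* A = 0 := by
      rw [Matrix.sub_vecMul, h.mem, h'.mem, sub_self]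
    rw [← Matrix.vecMul_eq_sum, h2]
  have h3 := Fintype.linearIndependent_iff.1 hA (z - z') h1
  funext i
  have h4 := h3 i
  rw [Pi.sub_apply] at h4
  linarith

end Pool.Agent.LAT.H65
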